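import Pool.Agent.Lib.MP_825ff6_co.Pl.Final

/-!
Every tightly covered planar convex body is a parallelogram.
-/

set_option autoImplicit false

namespace Pool.Agent.Results.MP_825ff6_co.PlanarBodies

open Pool.Agent.Lib.MP_825ff6_co Pool.Agent.Lib.MP_825ff6_co.Pl Set

/-- The coordinates of the plane. -/
private noncomputable def coord : EuclideanSpace ℝ (Fin 2) ≃L[ℝ] (ℝ × ℝ) :=
  (EuclideanSpace.equiv (Fin 2) ℝ).trans (ContinuousLinearEquiv.finTwoArrow ℝ ℝ)

private theorem planar_euclidean {K : Set (EuclideanSpace ℝ (Fin 2))} (hconv : Convex ℝ K)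
    (hcomp : IsCompact K) (hint : (interior K).Nonempty) (h : TightlyCovered K) :
    ∃ f : EuclideanSpace ℝ (Fin 2) ≃ᵃ[ℝ] EuclideanSpace ℝ (Fin 2),
      K = f '' {x | ∀ i, 0 ≤ x i ∧ x i ≤ 1} := by
  set Ψ := coord with hΨ
  have hK' : TightlyCovered ((fun z => Ψ.toLinearEquiv z + 0) '' K) :=
    tightlyCovered_image Ψ.toLinearEquiv 0 h
  have himg : (fun z => Ψ.toLinearEquiv z + 0) '' K = Ψ '' K := by
    refine image_congr fun z _ => ?_
    simp
  rw [himg] at hK'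
  have hc' : Convex ℝ (Ψ '' K) := hconv.linear_image Ψ.toLinearEquiv.toLinearMap
  have hk' : IsCompact (Ψ '' K) := hcomp.image Ψ.continuous
  have hi' : (interior (Ψ '' K)).Nonempty := by
    have := Ψ.toHomeomorph.image_interior K
    obtain ⟨z, hz⟩ := hint
    refine ⟨Ψ z, ?_⟩
    have h1 : Ψ z ∈ Ψ.toHomeomorph '' interior K := ⟨z, hz, rfl⟩
    rw [this] at h1
    exact h1
  obtain ⟨Φ, c, hΦ⟩ := planar hc' hk' hi' hK'
  set L : EuclideanSpace ℝ (Fin 2) ≃ₗ[ℝ] EuclideanSpace ℝ (Fin 2) :=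
    ((Ψ.toLinearEquiv.trans (LinearEquiv.smulOfNeZero ℝ (ℝ × ℝ) (2 : ℝ) two_ne_zero)).trans
      Φ.symm).trans Ψ.toLinearEquiv.symm with hL
  set v : EuclideanSpace ℝ (Fin 2) := Ψ.symm (c - Φ.symm (1, 1)) with hv
  refine ⟨L.toAffineEquiv.trans (AffineEquiv.constVAdd ℝ _ v), ?_⟩
  have hΨv : ∀ x : EuclideanSpace ℝ (Fin 2), Φ (Ψ (v + L x) - c) = (2 : ℝ) • Ψ x - (1, 1) := by
    intro x
    have h1 : Ψ (L x) = Φ.symm ((2 : ℝ) • Ψ x) := by
      simp [hL, hΨ]
    have h2 : Ψ v = c - Φ.symm (1, 1) := by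
      rw [hv, ContinuousLinearEquiv.apply_symm_apply]
    rw [map_add, h1, h2]
    have h3 : c - Φ.symm (1, 1) + Φ.symm ((2 : ℝ) • Ψ x) - c =
        Φ.symm ((2 : ℝ) • Ψ x) - Φ.symm (1, 1) := by abel
    rw [h3, map_sub, LinearEquiv.apply_symm_apply, LinearEquiv.apply_symm_apply]
  have hmem : ∀ z : EuclideanSpace ℝ (Fin 2), z ∈ K ↔
      |(Φ (Ψ z - c)).1| ≤ 1 ∧ |(Φ (Ψ z - c)).2| ≤ 1 := by
    intro z
    rw [← hΦ (Ψ z)]
    exact ((Ψ.injective.mem_set_image)).symm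
  have hcoord1 : ∀ x : EuclideanSpace ℝ (Fin 2), (Ψ x).1 = x 0 := fun x => rfl
  have hcoord2 : ∀ x : EuclideanSpace ℝ (Fin 2), (Ψ x).2 = x 1 := fun x => rfl
  ext z
  constructor
  · intro hz
    refine ⟨L.symm (z - v), ?_, ?_⟩
    · have h1 := (hmem z).1 hz
      have h2 := hΨv (L.symm (z - v))
      rw [LinearEquiv.apply_symm_apply, add_sub_cancel] at h2
      rw [h2] at h1
      simp only [Prod.fst_sub, Prod.snd_sub, Prod.smul_fst, Prod.smul_snd, smul_eq_mul, hcoord1,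
        hcoord2, abs_le] at h1
      intro i
      fin_cases i
      · exact ⟨by simp only [Fin.zero_eta]; linarith [h1.1.1], by simp only [Fin.zero_eta]; linarith [h1.1.2]⟩
      · exact ⟨by simp only [Fin.mk_one]; linarith [h1.2.1], by simp only [Fin.mk_one]; linarith [h1.2.2]⟩
    · change v +ᵥ L (L.symm (z - v)) = z
      rw [LinearEquiv.apply_symm_apply, vadd_eq_add, add_sub_cancel]
  · rintro ⟨x, hx, rfl⟩
    change v +ᵥ L x ∈ K
    rw [vadd_eq_add, hmem, hΨv]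
    simp only [Prod.fst_sub, Prod.snd_sub, Prod.smul_fst, Prod.smul_snd, smul_eq_mul, hcoord1,
        hcoord2, abs_le]
    have h0 := hx 0
    have h1 := hx 1
    exact ⟨⟨by linarith [h0.1], by linarith [h0.2]⟩, ⟨by linarith [h1.1], by linarith [h1.2]⟩⟩

/-- A tightly covered convex body `K` of the plane is a parallelogram, that is, an affine image of
the unit square. -/
theorem result (K : Set (EuclideanSpace ℝ (Fin 2))) (hconv : Convex ℝ K) (hcomp : IsCompact K)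
    (hint : (interior K).Nonempty) (h : TightlyCovered K) :
    ∃ f : EuclideanSpace ℝ (Fin 2) ≃ᵃ[ℝ] EuclideanSpace ℝ (Fin 2),
      K = f '' {x | ∀ i, 0 ≤ x i ∧ x i ≤ 1} :=
  planar_euclidean hconv hcomp hint h

end Pool.Agent.Results.MP_825ff6_co.PlanarBodies
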