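import Pool.Agent.Lib.MP_825ff6_co.Pr.Prod
import Pool.Agent.Lib.MP_825ff6_co.Pl.Trans

/-!
A direct sum of two convex bodies is tightly covered if and only if both summands are.
-/

set_option autoImplicit false

namespace Pool.Agent.Results.MP_825ff6_co.ProductBodies

open Pool.Agent.Lib.MP_825ff6_co Pool.Agent.Lib.MP_825ff6_co.Pl Pool.Agent.Lib.MP_825ff6_co.Pr Set

/-- Let `K₁` and `K₂` be convex bodies of `E^m` and `E^n`, and let `A : E^m × E^n → E^d` be a linear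
isomorphism. The convex body `A (K₁ × K₂)` of `E^d` is tightly covered if and only if `K₁` and
`K₂` are. -/
theorem result (m n d : ℕ)
    (A : (EuclideanSpace ℝ (Fin m) × EuclideanSpace ℝ (Fin n)) ≃ₗ[ℝ] EuclideanSpace ℝ (Fin d))
    (K₁ : Set (EuclideanSpace ℝ (Fin m))) (K₂ : Set (EuclideanSpace ℝ (Fin n)))
    (hc₁ : Convex ℝ K₁) (hk₁ : IsCompact K₁) (hi₁ : (interior K₁).Nonempty)
    (hc₂ : Convex ℝ K₂) (hk₂ : IsCompact K₂) (hi₂ : (interior K₂).Nonempty) :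
    TightlyCovered (A '' (K₁ ×ˢ K₂)) ↔ TightlyCovered K₁ ∧ TightlyCovered K₂ := by
  constructor
  · intro h
    have h1 := tightlyCovered_image A.symm 0 h
    have h2 : (fun z => A.symm z + 0) '' (A '' (K₁ ×ˢ K₂)) = K₁ ×ˢ K₂ := by
      rw [image_image]
      simp
    rw [h2] at h1
    exact ⟨tight_fst hc₁ hk₁ hi₁ hc₂ hk₂ hi₂ h1, tight_snd hc₁ hk₁ hi₁ hc₂ hk₂ hi₂ h1⟩
  · rintro ⟨h1, h2⟩
    have h3 := tightlyCovered_image A 0 (tight_prod hc₁ hk₁ hi₁ hc₂ hk₂ hi₂ h1 h2)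
    simpa using h3

end Pool.Agent.Results.MP_825ff6_co.ProductBodies
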