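import Pool.Agent.Lib.MP_825ff6_co.Limit

/-!
Every tightly covered convex body tiles space by translates, and its difference body has the
smallest volume the Brunn-Minkowski inequality allows.
-/

set_option autoImplicit false

namespace Pool.Agent.Results.MP_825ff6_co.TilesSpace

open Pool.Agent.Lib.MP_825ff6_co MeasureTheory Set Pointwise

/-- Let `K` be a tightly covered convex body in `E^d`. Then some family of translates of `K` with
pairwise disjoint interiors covers `E^d`, and `vol (K - K) ≤ 2 ^ d vol K`. -/
theorem result (d : ℕ) (K : Set (EuclideanSpace ℝ (Fin d))) (hconv : Convex ℝ K)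
    (hcomp : IsCompact K) (hint : (interior K).Nonempty) (h : TightlyCovered K) :
    (∃ L : Set (EuclideanSpace ℝ (Fin d)),
      (⋃ t ∈ L, homothet K t 1) = univ ∧
      ∀ s ∈ L, ∀ t ∈ L, s ≠ t →
        Disjoint (interior (homothet K s 1)) (interior (homothet K t 1))) ∧
    volume {z : EuclideanSpace ℝ (Fin d) | ∃ a ∈ K, ∃ b ∈ K, z = a - b} ≤ 2 ^ d * volume K := by
  constructor
  · obtain ⟨L, hL1, hL2⟩ := exists_tiling_of_windows hcomp
      (fun R s hR hs => exists_window hcomp hint h hR hs)
    refine ⟨L, ?_, ?_⟩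
    · simpa only [homothet_eq, one_smul] using hL1
    · simpa only [homothet_eq, one_smul] using hL2
  · have h1 := measure_half_diff_le (volume : Measure (EuclideanSpace ℝ (Fin d))) hconv hcomp hint h
    have h2 : {z : EuclideanSpace ℝ (Fin d) | ∃ a ∈ K, ∃ b ∈ K, z = a - b} = K - K := by
      ext z
      constructor
      · rintro ⟨a, ha, b, hb, rfl⟩
        exact ⟨a, ha, b, hb, rfl⟩
      · rintro ⟨a, ha, b, hb, rfl⟩
        exact ⟨a, ha, b, hb, rfl⟩
    rw [h2]
    have h3 : K - K = (2 : ℝ) • ((1 / 2 : ℝ) • (K - K)) := by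
      rw [smul_smul]
      norm_num
    rw [h3, Measure.addHaar_smul_of_nonneg volume (by norm_num)]
    rw [finrank_euclideanSpace, Fintype.card_fin, ENNReal.ofReal_pow (by norm_num)]
    have h4 : ENNReal.ofReal 2 = 2 := by norm_num
    rw [h4]
    gcongr

end Pool.Agent.Results.MP_825ff6_co.TilesSpace
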